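import Pool.Agent.Run7.h782.WS.NearPt

/-!
Piece W3: the step.
-/

set_option autoImplicit false

open MeasureTheory Set Filter Topology
open scoped ContDiff ComplexConjugate NNReal

namespace Pool.Agent.Run7.h782.WS

open H459R3.NS Pool.Agent.Run7.h782 Pool.Agent.Run7.h782.GD Pool.Agent.Run7.h782.GS

theorem al_nonneg (c : Cf) : 0 ≤ al c :=
  Finset.sum_nonneg fun _ _ => Finset.sum_nonneg fun _ _ => integral_nonneg fun _ => norm_nonneg _

/-- Comparison of two truncations. -/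
theorem tr_tr_le {L₀ L : ℝ} (hL : L₀ ≤ L) (y : Cf) (k : K3) :
    ‖tr L₀ y k - tr L y k‖ ≤ ‖(y - tr L₀ y) k‖ := by
  by_cases h : k ∈ bl L₀
  · have h' : k ∈ bl L := mem_bl.2 ⟨(mem_bl.1 h).1, (mem_bl.1 h).2.trans hL⟩
    rw [tr_mem h, tr_mem h', sub_self, norm_zero]
    exact norm_nonneg _
  · rw [Pi.sub_apply, tr_not h, zero_sub, norm_neg, sub_zero]
    exact norm_tr_le L y k

theorem stepW (hT1 : StmT1) (hProf : StmProf) (hApp : StmAppP) (hInt : StmInt) (hAl : StmAl) :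
    StmStepW := by
  classical
  obtain ⟨C₁, hC₁, T1⟩ := hT1
  obtain ⟨Cp, hCp, Prof⟩ := hProf
  obtain ⟨Ca, hCa, App⟩ := hApp
  obtain ⟨c, hc, Int⟩ := hInt
  obtain ⟨Cl, hCl, alAdd, _, alLe⟩ := hAl
  refine ⟨3 * Ca * Cp + 1, by positivity, ?_⟩
  intro ν hν U hU Z z hZ0 hzs hzh hzd Θ hΘ
  have hpi := Real.pi_pos
  have hUL : LSol ν U := hU.toLSol
  have hUM : Maj U := hUL.maj
  obtain ⟨M₀, M₁, hM₀, hM₁, hN0U, hN1U⟩ := hU.bounds
  -- the difference of the data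
  have hzl : L1 z := L1.of_supp hzs
  have hU0l : L1 (U 0) := hUM.l1 le_rfl
  set y : Cf := z - U 0 with hy
  have hyl : L1 y := hzl.sub hU0l
  have hz0 : z 0 = 0 := hzs 0 hZ0
  have hy0 : y 0 = 0 := by rw [hy, Pi.sub_apply, hz0, hUL.zero 0 le_rfl, sub_zero]
  have hal0 : 0 ≤ al y := al_nonneg y
  have inv0 : ∀ {a : Cf}, L1 a → Summable fun k => ‖a k‖ / len k := fun {a} ha => by
    have := l1_inv ha
    simpa only [← div_eq_inv_mul] using this
  -- the profiles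
  have hsν : 0 < Real.sqrt ν := Real.sqrt_pos.2 hν
  obtain ⟨θ', hθ'0, hθ'1, hθ'2, hθ'3⟩ : ∃ θ' : ℝ, 0 < θ' ∧
      Ca * Real.sqrt ν * θ' + Cl * (2 * θ') ≤ Θ / 8 ∧ 8 * θ' ≤ Θ ∧ (Cl + 1) * θ' ≤ Θ := by
    refine ⟨Θ / (8 * (Ca * Real.sqrt ν + 2 * Cl + 1)), by positivity, ?_⟩
    set θ' : ℝ := Θ / (8 * (Ca * Real.sqrt ν + 2 * Cl + 1)) with hθ'
    have hθ'0 : 0 < θ' := by positivity
    have hθ'e : θ' * (8 * (Ca * Real.sqrt ν + 2 * Cl + 1)) = Θ := by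
      rw [hθ']
      field_simp
    have p1 : 0 < Ca * Real.sqrt ν := by positivity
    have p2 := mul_pos hθ'0 p1
    have p3 := mul_pos hθ'0 hCl
    refine ⟨by nlinarith, by nlinarith, by nlinarith⟩
  have ev : ∀ (C ε' : ℝ), 0 < ε' → ∀ᶠ L : ℝ in atTop, L⁻¹ * C ≤ ε' := fun C ε' h => by
    have h1 : Tendsto (fun L : ℝ => L⁻¹ * C) atTop (𝓝 (0 * C)) :=
      tendsto_inv_atTop_zero.mul_const C
    rw [zero_mul] at h1
    exact h1.eventually_le_const h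
  obtain ⟨L₀, hL₀0, hL₀⟩ := ((eventually_gt_atTop (0 : ℝ)).and (ev (N0 y) θ' hθ'0)).exists
  have hNmy : Nm (y - tr L₀ y) ≤ θ' := (Nm_sub_tr_le hyl hL₀0).trans hL₀
  have hyh : Herm y := hzh.sub (hUL.herm 0 le_rfl)
  have hyd : Dv y := hzd.sub (hUL.div 0 le_rfl)
  obtain ⟨J, n, s_, P, hJ0, hn0, hsP, hsH, hsn, hs2, hs1, hsX⟩ :=
    Prof (bl L₀) (tr L₀ y) (zero_bl L₀) (fun k hk => tr_not hk) (herm_tr hyh L₀) (dv_tr hyd L₀)
      θ' hθ'0
  set q : Cf := fun k => ∑ j, nl (s_ j) (s_ j) k with hq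
  have hyt : L1 (y - tr L₀ y) := hyl.sub (l1_tr L₀ y)
  have hal1 : al (tr L₀ y) ≤ al y + Cl * θ' := by
    have e : tr L₀ y = y + (tr L₀ y - y) := by abel
    have h1 := alAdd y (tr L₀ y - y) (inv0 hyl) (inv0 ((l1_tr L₀ y).sub hyl))
    rw [← e] at h1
    have h2 := alLe (tr L₀ y - y) (inv0 ((l1_tr L₀ y).sub hyl))
    have h3 : ∑' k, ‖(tr L₀ y - y) k‖ / len k = Nm (y - tr L₀ y) := by
      rw [Nm_eq]
      refine tsum_congr fun k => ?_
      rw [Pi.sub_apply, Pi.sub_apply, norm_sub_rev]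
    rw [h3] at h2
    have h4 := mul_le_mul_of_nonneg_left hNmy hCl.le
    linarith
  have hS2 : ∑ j, ∑ p ∈ P, ‖s_ j p‖ ^ 2 ≤ Cp * (al y + Θ) := by
    refine hs2.trans (mul_le_mul_of_nonneg_left ?_ hCp.le)
    nlinarith
  obtain ⟨H', AppH⟩ := App ν hν J n s_ P hJ0 hn0 hsP hsH hsn
  have hH'0 : 0 ≤ H' := by
    obtain ⟨B, v, F, g, h, w, -, -, -, -, h5, -⟩ := AppH 1 one_pos
    simpa using h5 0 le_rfl
  -- the profiles have finite support
  have hqs : ∀ k ∉ Finset.image₂ (fun x y => x + y) P P, q k = 0 := by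
    intro k hk
    exact Finset.sum_eq_zero fun j _ => nl_supp (hsP j) hk
  have hql : L1 q := L1.of_supp hqs
  have hq0 : q 0 = 0 := Finset.sum_eq_zero fun j _ => nl_zero_mode _ _
  -- the error of the datum
  set e₀ : K3 → ℝ := fun k => ‖(tr L₀ y - q) k‖ + ‖(y - tr L₀ y) k‖ with he₀
  have he₀0 : ∀ k, 0 ≤ e₀ k := fun k => by positivity
  have he₀z : e₀ 0 = 0 := by
    simp only [he₀]
    rw [Pi.sub_apply, tr_not (zero_bl L₀), hq0, Pi.sub_apply, hy0, tr_not (zero_bl L₀)]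
    simp
  have he₀s : Summable e₀ := Summable.add ((l1_tr L₀ y).sub hql) hyt
  have hi1 := inv0 ((l1_tr L₀ y).sub hql)
  have hi2 := inv0 hyt
  have he₀d : Summable fun k => e₀ k / len k :=
    (hi1.add hi2).congr fun k => (add_div _ _ _).symm
  have he₀m : ∑' k, e₀ k / len k ≤ 2 * θ' := by
    have h3 : ∑' k, e₀ k / len k
        = ∑' k, ‖(tr L₀ y - q) k‖ / len k + ∑' k, ‖(y - tr L₀ y) k‖ / len k := by
      rw [← hi1.tsum_add hi2]
      exact tsum_congr fun k => add_div _ _ _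
    have h4 : ∑' k, ‖(tr L₀ y - q) k‖ / len k ≤ θ' :=
      Real.tsum_le_of_sum_le (fun k => div_nonneg (norm_nonneg _) (len_nonneg k)) hsX
    have h5 : ∑' k, ‖(y - tr L₀ y) k‖ / len k ≤ θ' := by
      rw [← Nm_eq]
      exact hNmy
    rw [h3]
    linarith
  have hqe' : ∀ k, ‖q k‖ ≤ ‖y k‖ + e₀ k := by
    intro k
    have h1 : q k = y k + (-(tr L₀ y - q) k + -(y - tr L₀ y) k) := by
      rw [Pi.sub_apply, Pi.sub_apply]
      abel
    calc ‖q k‖ = ‖y k + (-(tr L₀ y - q) k + -(y - tr L₀ y) k)‖ := by rw [← h1]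
      _ ≤ ‖y k‖ + (‖-(tr L₀ y - q) k‖ + ‖-(y - tr L₀ y) k‖) :=
          (norm_add_le _ _).trans (add_le_add le_rfl (norm_add_le _ _))
      _ = _ := by rw [norm_neg, norm_neg]
  -- constants
  set K' : ℝ := H' + 1 with hK'
  have hK'0 : 0 < K' := by positivity
  refine ⟨3 * H' + 4, ?_⟩
  intro ε hε
  set MP : ℝ := 36 * (3 * (2 + 4 * (M₀ * M₁))) / ν + 24 * Real.pi * (2 + 2 * M₁) with hMP
  set ε₁ : ℝ := min ε (ε * Real.sqrt ε) with hε₁
  have hsε : 0 < Real.sqrt ε := Real.sqrt_pos.2 hε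
  have hε₁0 : 0 < ε₁ := by positivity
  have hε₁1 : ε₁ ≤ ε := min_le_left _ _
  have hε₁2 : ε₁ ≤ ε * Real.sqrt ε := min_le_right _ _
  set κ : ℝ := ε₁ * Real.exp (-MP) / 3 with hκ
  have hκ0 : 0 < κ := by positivity
  obtain ⟨e₁, he0, he1, he2, he3, he4, he5⟩ : ∃ e₁ : ℝ, 0 < e₁ ∧ e₁ ≤ ν ∧ e₁ ≤ c * ν / 3 ∧
      e₁ ≤ Θ / 9 ∧ e₁ ≤ 1 ∧ e₁ ≤ κ * Real.sqrt ν / 2 :=
    ⟨min (min (min ν (c * ν / 3)) (min (Θ / 9) 1)) (κ * Real.sqrt ν / 2), by positivity,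
      (min_le_left _ _).trans ((min_le_left _ _).trans (min_le_left _ _)),
      (min_le_left _ _).trans ((min_le_left _ _).trans (min_le_right _ _)),
      (min_le_left _ _).trans ((min_le_right _ _).trans (min_le_left _ _)),
      (min_le_left _ _).trans ((min_le_right _ _).trans (min_le_right _ _)), min_le_right _ _⟩
  set η : ℝ := e₁ / (C₁ * Real.exp (C₁ * (2 * K' + 2 * (M₀ * M₁)) / ν)) with hη
  have hη0 : 0 < η := by positivity
  obtain ⟨L, ⟨⟨⟨⟨⟨⟨⟨hL1, hL2⟩, hL3⟩, hL4⟩, hL5⟩, hL6⟩, hL7⟩, hL8⟩⟩ :=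
    ((((((((eventually_gt_atTop (0 : ℝ)).and (eventually_ge_atTop (∑ k ∈ Z, len k))).and
      (ev (96 * Real.pi * (M₀ * M₁)) (η / 3) (by positivity))).and
      (ev M₀ (Θ / 9) (by positivity))).and (ev (4 * M₀ * (M₁ + 1)) (κ ^ 2) (by positivity))).and
      (ev (M₀ * M₁) (1 / 3) (by norm_num))).and (eventually_ge_atTop L₀)).and
      (ev (M₀ * M₁) (Θ / 9) (by positivity))).exists
  have hZL : ∀ k ∈ Z, k ∈ bl L := fun k hk => mem_bl.2
    ⟨fun h => hZ0 (h ▸ hk), (Finset.single_le_sum (f := fun k => len k)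
      (fun k _ => len_nonneg k) hk).trans hL2⟩
  set θ : ℝ := η / (144 * Real.pi * (M₀ + 1)) with hθ
  have hθ0 : 0 < θ := by positivity
  obtain ⟨δ, hδ0, hδ1, hδ2, hδ3, hδ4, hδ5, hδ6, hδ7, hδ8⟩ : ∃ δ : ℝ, 0 < δ ∧ δ ≤ ε ∧ δ ≤ κ / 2 ∧
      δ ≤ c * ν / 3 ∧ δ ≤ 1 ∧ δ ≤ θ / 2 ∧ δ ≤ θ ^ 2 / (4 * K') ∧ δ ≤ Θ / 9 ∧ δ ≤ η / 3 :=
    ⟨min (min (min (min ε (κ / 2)) (min (c * ν / 3) 1)) (min (θ / 2) (θ ^ 2 / (4 * K'))))
      (min (Θ / 9) (η / 3)),
      by positivity,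
      (min_le_left _ _).trans ((min_le_left _ _).trans ((min_le_left _ _).trans (min_le_left _ _))),
      (min_le_left _ _).trans ((min_le_left _ _).trans ((min_le_left _ _).trans (min_le_right _ _))),
      (min_le_left _ _).trans ((min_le_left _ _).trans ((min_le_right _ _).trans (min_le_left _ _))),
      (min_le_left _ _).trans ((min_le_left _ _).trans ((min_le_right _ _).trans (min_le_right _ _))),
      (min_le_left _ _).trans ((min_le_right _ _).trans (min_le_left _ _)),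
      (min_le_left _ _).trans ((min_le_right _ _).trans (min_le_right _ _)),
      (min_le_right _ _).trans (min_le_left _ _), (min_le_right _ _).trans (min_le_right _ _)⟩
  have hz'4 : ∀ k, z k - tr L (U 0) k = tr L y k := by
    intro k
    by_cases hk : k ∈ bl L
    · rw [tr_mem hk, tr_mem hk, hy, Pi.sub_apply]
    · rw [tr_not hk, tr_not hk, sub_zero]
      exact hzs k fun h => hk (hZL k h)
  obtain ⟨B, v, F, g, h, w, A, hg, hFg, hgi', hvK0, hvS, hv0, hwB, hwal, hhc, hhs, hhi, hwh, hvh,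
    hvt, hvt1, hvd⟩ := AppH δ hδ0
  have hwl : L1 w := L1.of_supp hwB
  obtain ⟨a, N⟩ := near_exists (U := U) (L := L) (C₁ := C₁) (K' := K') (M₀ := M₀) (M₁ := M₁)
    (θ := θ) (δ := δ) (e₁ := e₁) (η := η) T1 hC₁ hν hUL hM₀ hN0U hN1U A hg hFg rfl
    (fun T hT => (hgi' T hT).trans hδ8) hL1 hL3 he0 he1 hK'0 hδ0 rfl hδ5 hδ6
    (fun T hT => (hvK0 T hT).trans (by rw [hK']; linarith)) hvd
  have haM : Maj a := CSol.maj N.sol
  -- the pointwise bound
  have hpt : ∀ t, 0 < t → N0 (a t - U t) ≤ ε₁ / Real.sqrt t := fun t ht =>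
    N.pt hν hM₀ hM₁ hN0U hN1U hL1 hκ0 rfl hL5 he0 he4 he1 he5 hδ0 hδ4 hδ2 hvt hvt1 ht
  -- the datum
  have hdat : ∀ k, a 0 k - z k = w k + (q k - tr L y k) := by
    intro k
    rw [N.init, ← hz'4]
    show v 0 k + tr L (U 0) k - z k = _
    rw [hv0]
    abel
  have hqe : ∀ k, ‖q k - tr L y k‖ ≤ e₀ k := by
    intro k
    have h1 : q k - tr L y k = -(tr L₀ y - q) k + (tr L₀ y k - tr L y k) := by
      rw [Pi.sub_apply]
      abel
    rw [h1]
    refine (norm_add_le _ _).trans ?_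
    rw [norm_neg]
    exact add_le_add le_rfl (tr_tr_le hL7 y k)
  refine ⟨h, a, N.sol, N.tg Int hc hν hU hδ0 hδ3 he2 hvd, ?_, hhc, ?_, ?_, ?_, ?_, ?_, ?_, ?_, ?_⟩
  · -- the antidivergence of the datum
    have e : a 0 - z = w + (q - tr L y) := funext hdat
    have hl : L1 (q - tr L y) := hql.sub (l1_tr L y)
    have h1 := alAdd w (q - tr L y) (inv0 hwl) (inv0 hl)
    rw [← e] at h1
    have h2 := alLe (q - tr L y) (inv0 hl)
    have h3 : ∑' k, ‖(q - tr L y) k‖ / len k ≤ ∑' k, e₀ k / len k :=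
      (inv0 hl).tsum_le_tsum (fun k => div_le_div_of_nonneg_right (hqe k) (len_nonneg k)) he₀d
    have h4 : al w ≤ Ca * Real.sqrt ν * θ' + δ :=
      hwal.trans (add_le_add (mul_le_mul_of_nonneg_left hs1 (by positivity)) le_rfl)
    have h5 := mul_le_mul_of_nonneg_left (h3.trans he₀m) hCl.le
    linarith
  · intro s hs
    exact (hhs s hs).trans (div_le_div_of_nonneg_right hδ1 (Real.sqrt_nonneg _))
  · intro T hT
    refine (hhi T hT).trans ?_
    linarith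
  · -- the datum in weak norms
    refine ⟨e₀, he₀0, he₀z, he₀s, he₀m.trans (by linarith), ?_⟩
    intro s hs A'
    have h1 : ∀ k, ht s k * ‖a 0 k - z k‖ ≤ ht s k * ‖w k‖ + ht s k * e₀ k := fun k => by
      rw [← mul_add, hdat]
      exact mul_le_mul_of_nonneg_left ((norm_add_le _ _).trans (add_le_add le_rfl (hqe k)))
        (ht_pos s k).le
    have h2 : ∑ k ∈ A', ht s k * ‖w k‖ ≤ ∑ k ∈ B, ht s k * ‖w k‖ :=
      Pool.Agent.Run7.h32.GD.sum_supp_le (fun k hk => by rw [hwB k hk, norm_zero, mul_zero])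
        fun k => mul_nonneg (ht_pos s k).le (norm_nonneg _)
    calc ∑ k ∈ A', ht s k * ‖a 0 k - z k‖
        ≤ ∑ k ∈ A', (ht s k * ‖w k‖ + ht s k * e₀ k) := Finset.sum_le_sum fun k _ => h1 k
      _ = ∑ k ∈ A', ht s k * ‖w k‖ + ∑ k ∈ A', ht s k * e₀ k := Finset.sum_add_distrib
      _ ≤ h s + ∑' k, ht s k * e₀ k := add_le_add (h2.trans (hwh s hs))
          ((summable_ht he₀0 he₀s hs).sum_le_tsum A' fun k _ =>
            mul_nonneg (ht_pos s k).le (he₀0 k))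
  · -- closeness at all times in weak norms
    intro t ht0
    exact N.bes hL1 hΘ hN0U hL4 he3 hδ7 hθ'2 hyl he₀0 he₀z he₀s he₀m hqe' ht0 (hvh t ht0)
  · -- the pointwise bound
    intro t ht A'
    exact (sum_le_N0 ((haM.l1 ht.le).sub (hUM.l1 ht.le)) A').trans ((hpt t ht).trans
      (div_le_div_of_nonneg_right hε₁1 (Real.sqrt_nonneg _)))
  · -- the square integral
    intro T hT A'
    exact N.sqint hν hM₀ hN0U hN1U hL1 hL6 he0 he4 he1 hvK0 hT A'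
  · -- the norm in `L²`
    intro T hT A'
    have h1 := N.l2 (Q := Ca * (Cp * (al y + Θ))) hν hM₀ hN0U hN1U hL1 hL8 he0 he3 he1
      (fun T hT => (hvS T hT).trans (add_le_add (mul_le_mul_of_nonneg_left hS2 hCa.le) hδ7))
      hT A'
    refine h1.trans ?_
    have h2 : 0 ≤ Ca * (Cp * (al y + Θ)) := by positivity
    nlinarith
  · -- closeness in the sum norm for later times
    intro t ht A'
    have ht0 : 0 < t := hε.trans_le ht
    refine (sum_le_N0 ((haM.l1 ht0.le).sub (hUM.l1 ht0.le)) A').trans ((hpt t ht0).trans ?_)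
    rw [div_le_iff₀ (Real.sqrt_pos.2 ht0)]
    exact hε₁2.trans (mul_le_mul_of_nonneg_left (Real.sqrt_le_sqrt ht) hε.le)

end Pool.Agent.Run7.h782.WS
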