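import Pool.Agent.Run7.h969.GG.Defs

/-!
Weak solutions which are smooth for positive times: definitions and statements of the pieces.

The waves are modulated shear waves `wv N n s` with profiles `s = a(x) X(x) ξ` (`n · ξ = 0`) where
`∑ a_ξ² ξ ⊗ ξ = R + ρ Id` and `R` is the antidivergence of the field `z` which has to be produced:
the norm of the waves in `L²` (space and time) is `(∫ |R|)^(1/2)`. The factor `X ≥ 0` has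
`∫ X² = 1` and `∫ X` as small as one likes, so that the antidivergence of the waves themselves is
as small as one likes in `L¹`, and the waves of the next step are small in `L²`.
-/

set_option autoImplicit false

open MeasureTheory Set Filter Topology
open scoped ContDiff ENNReal

namespace Pool.Agent.Run7.h782.WS

open H459R3.NS Pool.Agent.Run7.h782 Pool.Agent.Run7.h782.GD Pool.Agent.Run7.h782.GS
open Pool.Agent.Run7.h969.GG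

/-- The coefficients of the symmetric antidivergence `R` of the field with coefficients `c`
(`∑ j ∂ j R i j = c i` if `c` is solenoidal with mean zero). -/
noncomputable def anti (c : Cf) (i j : Fin 3) (k : K3) : ℂ :=
  (c k i * (k j : ℂ) + (k i : ℂ) * c k j) / (2 * Real.pi * Complex.I * (GD.sq k : ℂ))

/-- The norm of the antidivergence in `L¹` of the period cell. -/
noncomputable def al (c : Cf) : ℝ := ∑ i, ∑ j, ∫ x in cube, ‖S (anti c i j) x‖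

/-- The norm in `L¹` of the period cell. -/
noncomputable def l1n (c : Cf) : ℝ := ∑ i, ∫ x in cube, ‖S (fun k => c k i) x‖

/-- **Piece W0.** Elementary properties of `al`. -/
def StmAl : Prop := ∃ C : ℝ, 0 < C ∧
  (∀ c d : Cf, (Summable fun k => ‖c k‖ / len k) → (Summable fun k => ‖d k‖ / len k) →
    al (c + d) ≤ al c + al d) ∧
  (∀ c : Cf, al (-c) = al c) ∧
  ∀ c : Cf, (Summable fun k => ‖c k‖ / len k) → al c ≤ C * ∑' k, ‖c k‖ / len k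

/-- **Piece W1a** (geometric decomposition). With `R i j = S (anti z i j)` (real, symmetric) and
`ρ = 2 √(θ'² + ∑ (R i j)²)`:
`R + 5 ρ Id = ∑ i, (ρ + R i i) e i ⊗ e i + ∑ i < j, (ρ + R i j / 2) (e i + e j) ⊗ (e i + e j)
  + ∑ i < j, (ρ - R i j / 2) (e i - e j) ⊗ (e i - e j)`, nine positive smooth periodic functions
`c`; `a = √c` is smooth, so `fr a` is absolutely summable, `nl (fr a • ξ) (fr a • ξ) k =
2 π i (k · ξ) fr c k • prj k ξ`, the sum over the nine `ξ` is `z k`; truncate `fr a` at `|p| ≤ L`,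
`L` large (`sum_nl_le0` of `GS/Trunc`), Bessel for the second last clause. -/
def StmGeo : Prop := ∃ C : ℝ, 0 < C ∧ ∀ (Z : Finset K3) (z : Cf), (0 : K3) ∉ Z →
  (∀ k ∉ Z, z k = 0) → Herm z → Dv z → ∀ θ : ℝ, 0 < θ →
  ∃ (J : ℕ) (n : Fin J → K3) (s : Fin J → Cf) (P : Finset K3), 0 < J ∧
    (∀ j, n j ≠ 0) ∧ (∀ j, ∀ p ∉ P, s j p = 0) ∧ (∀ j, Herm (s j)) ∧
    (∀ j p, kd (n j) (s j p) = 0) ∧
    (∑ j, ∑ p ∈ P, ‖s j p‖ ^ 2 ≤ C * (al z + θ)) ∧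
    ∀ B : Finset K3, ∑ k ∈ B, ‖z k - ∑ j, nl (s j) (s j) k‖ / len k ≤ θ

/-- **Piece W1b** (concentration). One step: `s' = √(2/3) (s + (1/2) sh (H n) s +
(1/2) sh (-H n) s)`, that is multiplication by `√(2/3) (1 + cos (2 π H n · x)) ≥ 0`, with `H`
large: the sum of squares is unchanged (disjoint supports), `nl s' s' - nl s s` has only
frequencies near `± H n`, `± 2 H n` and bounded coefficients (`kd n s = 0`, compare `nl_high` and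
`nl_sh_neg` of `h969/GG/Unit`), and `l1n s' → √(2/3) l1n s` as `H → ∞` (Riemann-Lebesgue for the
continuous functions `‖S (s · i) x‖`). Then iterate. -/
def StmConc : Prop := ∀ (n : K3) (s : Cf) (P : Finset K3), n ≠ 0 → (∀ p ∉ P, s p = 0) →
  Herm s → (∀ p, kd n (s p) = 0) → ∀ θ : ℝ, 0 < θ →
  ∃ (s' : Cf) (P' : Finset K3), (∀ p ∉ P', s' p = 0) ∧ Herm s' ∧ (∀ p, kd n (s' p) = 0) ∧
    ∑ p ∈ P', ‖s' p‖ ^ 2 ≤ ∑ p ∈ P, ‖s p‖ ^ 2 ∧ l1n s' ≤ θ ∧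
    ∀ B : Finset K3, ∑ k ∈ B, ‖nl s' s' k - nl s s k‖ / len k ≤ θ

/-- **Piece W1c** (from W1a and W1b). Profiles. -/
def StmProf : Prop := ∃ C : ℝ, 0 < C ∧ ∀ (Z : Finset K3) (z : Cf), (0 : K3) ∉ Z →
  (∀ k ∉ Z, z k = 0) → Herm z → Dv z → ∀ θ : ℝ, 0 < θ →
  ∃ (J : ℕ) (n : Fin J → K3) (s : Fin J → Cf) (P : Finset K3), 0 < J ∧
    (∀ j, n j ≠ 0) ∧ (∀ j, ∀ p ∉ P, s j p = 0) ∧ (∀ j, Herm (s j)) ∧
    (∀ j p, kd (n j) (s j p) = 0) ∧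
    (∑ j, ∑ p ∈ P, ‖s j p‖ ^ 2 ≤ C * (al z + θ)) ∧ (∑ j, l1n (s j) ≤ θ) ∧
    ∀ B : Finset K3, ∑ k ∈ B, ‖z k - ∑ j, nl (s j) (s j) k‖ / len k ≤ θ

/-- **Piece W2a.** The antidivergence of `N` layers of waves in `L¹`. The antidivergence of
`M |n| wv M n s` is `2 sin (2 π M n · x) / (2 π) (s ⊗ n + n ⊗ s) / |n|` up to an error which tends
to `0` in the sum norm as `M → ∞`; with `σ = N^(-1/2) ∑ l, sin (2 π (M l) n · x)`,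
`∫ |s| |σ| ≤ (∫ |s|)^(1/2) (∫ |s| σ²)^(1/2)` and `∫ |s| σ² → (∫ |s|) / 2` (Riemann-Lebesgue for the
continuous function `|s|`, all frequencies `(M l ± M l') n` but the trivial ones being large). -/
def StmAlW : Prop := ∃ C : ℝ, 0 < C ∧ ∀ (J N : ℕ) (n : Fin J → K3) (s : Fin J → Cf)
  (P : Finset K3), 0 < N → (∀ j, n j ≠ 0) → (∀ j, ∀ p ∉ P, s j p = 0) → (∀ j, Herm (s j)) →
  (∀ j p, kd (n j) (s j p) = 0) → ∀ δ : ℝ, 0 < δ → ∃ M₀ : ℕ, ∀ M : Fin J → Fin N → ℕ,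
    (∀ j l, M₀ ≤ M j l) → (∀ j l l', l < l' → M₀ + M j l ≤ M j l') →
    al (∑ j, ∑ l, (((M j l : ℝ) * len (n j) / Real.sqrt N : ℝ) : ℂ) • wv (M j l) (n j) (s j))
      ≤ C * (∑ j, l1n (s j)) + δ

/-- **Piece W2** (approximate solutions from profiles, as `StmApp2`; uses W2a and `unit_le`).
`N` layers `l < N`, frequencies `M j l = H ^ (1 + l * J + j)` with `H` large,
`λ j l = 4 π² ν (M j l)² |n j|²`,
`v t = ∑ j l, √(λ j l / N) e^(-λ j l t) wv (M j l) (n j) (s j) + ∑ j l, e^(-2 λ j l t) / N nl (s j) (s j)`.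
For the low part: if `g j t = (1/N) ∑ l, e^(-2 λ j l t)` then `0 ≤ g 0 t - g j t ≤ 1/N` because
`λ 0 l ≤ λ j l ≤ λ 0 (l+1)` (telescoping). -/
def StmAppP : Prop := ∃ C₀ : ℝ, 0 < C₀ ∧ ∀ (ν : ℝ), 0 < ν → ∀ (J : ℕ) (n : Fin J → K3)
  (s : Fin J → Cf) (P : Finset K3), 0 < J → (∀ j, n j ≠ 0) → (∀ j, ∀ p ∉ P, s j p = 0) →
  (∀ j, Herm (s j)) → (∀ j p, kd (n j) (s j p) = 0) →
  ∃ H : ℝ, ∀ δ : ℝ, 0 < δ →
  ∃ (B : Finset K3) (v F : ℝ → Cf) (g h : ℝ → ℝ) (w : Cf), Appr ν B v F ∧ Continuous g ∧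
    (∀ t, 0 ≤ t → ∑ k ∈ B, ‖F t k‖ / len k ≤ g t) ∧
    (∀ T, 0 ≤ T → ∫ t in (0 : ℝ)..T, g t ≤ δ) ∧
    (∀ T, 0 ≤ T → ∫ t in (0 : ℝ)..T, (∑ k ∈ B, ‖v t k‖) ^ 2 ≤ H) ∧
    (∀ T, 0 ≤ T → ∫ t in (0 : ℝ)..T, ∑ k ∈ B, ‖v t k‖ ^ 2
      ≤ C₀ * (∑ j, ∑ p ∈ P, ‖s j p‖ ^ 2) + δ) ∧
    (∀ k, v 0 k = ∑ j, nl (s j) (s j) k + w k) ∧ (∀ k ∉ B, w k = 0) ∧
    al w ≤ C₀ * Real.sqrt ν * (∑ j, l1n (s j)) + δ ∧
    Continuous h ∧ (∀ r, 0 < r → h r ≤ δ / Real.sqrt r) ∧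
    (∀ T, 0 ≤ T → ∫ r in (0 : ℝ)..T, h r ^ 2 ≤ H) ∧
    (∀ r, 0 ≤ r → ∑ k ∈ B, ht r k * ‖w k‖ ≤ h r) ∧
    (∀ t, 0 ≤ t → ∃ e : K3 → ℝ, (∀ k, 0 ≤ e k) ∧ e 0 = 0 ∧ Summable e ∧ ∑' k, e k / len k ≤ δ ∧
      ∀ r, 0 ≤ r → ∑ k ∈ B, ht r k * ‖v t k‖
        ≤ (∑ k ∈ B, ht r k * ‖∑ j, nl (s j) (s j) k‖) + h r + ∑' k, ht r k * e k) ∧
    (∀ t, 0 < t → ∑ k ∈ B, ‖v t k‖ ≤ δ / Real.sqrt t) ∧
    (∀ t, 0 < t → ∑ k ∈ B, len k * ‖v t k‖ ≤ δ / t) ∧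
    ∀ t, δ ≤ t → ∑ k ∈ B, len k * ‖v t k‖ ≤ δ * Real.exp (-t)

/-- **Piece W3** (the step; from `StmT1`, `StmProf`, `StmAppP`, `StmInt`, `StmProp`, `StmAl` and
as `StmStep`). The pointwise bound in time: in `[t/2, t]` there is a time `r` at which
`∑ |k| ‖error k‖ ≤ (2/t) ∫ ∑ |k| ‖error k‖`, so `∑ ‖a r k - U r k‖` is small compared to `t^(-1/2)`,
then `StmProp` from `r` to `t`. -/
def StmStepW : Prop := ∃ C₀ : ℝ, 0 < C₀ ∧ ∀ (ν : ℝ), 0 < ν → ∀ U : ℝ → Cf, Tg ν U →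
  ∀ (Z : Finset K3) (z : Cf), (0 : K3) ∉ Z → (∀ k ∉ Z, z k = 0) → Herm z → Dv z →
  ∀ θ : ℝ, 0 < θ → ∃ H : ℝ, ∀ ε : ℝ, 0 < ε →
  ∃ (h : ℝ → ℝ) (a : ℝ → Cf), CSol ν a ∧ Tg ν a ∧ al (a 0 - z) ≤ θ ∧
    Continuous h ∧ (∀ s, 0 < s → h s ≤ ε / Real.sqrt s) ∧
    (∀ T, 0 ≤ T → ∫ s in (0 : ℝ)..T, h s ^ 2 ≤ H) ∧
    (∃ e : K3 → ℝ, (∀ k, 0 ≤ e k) ∧ e 0 = 0 ∧ Summable e ∧ ∑' k, e k / len k ≤ θ ∧
      ∀ s, 0 ≤ s → ∀ A : Finset K3,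
        ∑ k ∈ A, ht s k * ‖a 0 k - z k‖ ≤ h s + ∑' k, ht s k * e k) ∧
    (∀ t, 0 ≤ t → ∃ e : K3 → ℝ, (∀ k, 0 ≤ e k) ∧ e 0 = 0 ∧ Summable e ∧ ∑' k, e k / len k ≤ θ ∧
      ∀ s, 0 ≤ s → ∀ A : Finset K3, ∑ k ∈ A, ht s k * ‖a t k - U t k‖
        ≤ (∑' k, ht s k * ‖z k - U 0 k‖) + h s + ∑' k, ht s k * e k) ∧
    (∀ t, 0 < t → ∀ A : Finset K3, ∑ k ∈ A, ‖a t k - U t k‖ ≤ ε / Real.sqrt t) ∧
    (∀ T, 0 ≤ T → ∀ A : Finset K3, ∫ t in (0 : ℝ)..T, (∑ k ∈ A, ‖a t k - U t k‖) ^ 2 ≤ H) ∧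
    (∀ T, 0 ≤ T → ∀ A : Finset K3, ∫ t in (0 : ℝ)..T, ∑ k ∈ A, ‖a t k - U t k‖ ^ 2
      ≤ C₀ * (al (z - U 0) + θ)) ∧
    ∀ t, ε ≤ t → ∀ A : Finset K3, ∑ k ∈ A, ‖a t k - U t k‖ ≤ ε

/-- **Piece W4** (the iteration; from `StmStepW`, `StmLim`, `StmBes`, `StmAl`, as `StmIter`).
Stage `j`: `z j` finite truncation of `c` with `∑ ‖z j - z (j-1)‖ ≤ 4^(-j)`, target `a (j-1)`,
`θ j = 4^(-j)`, then `H j`, then `ε j` so small that `ε j ≤ 2^(-j-2) δ`, `ε j ≤ ε (j-1)`,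
`ε j ^ (1/(j+1)) (H j + 1) ≤ 2^(-j)`. The norms in `L²` of the differences are at most
`(C (4^(-j) + θ (j-1) + θ j))^(1/2)`, the norms in `L^q (dt/t)` of
`√t ∑ ‖a j t - a (j-1) t‖` at most `(ε j ^ (q-2) H j)^(1/q)`. -/
def StmIterW : Prop := ∀ (ν : ℝ), 0 < ν → ∀ U : ℝ → Cf, Tg ν U → ∀ c : Cf, c 0 = 0 → Herm c →
  Dv c → (Summable fun k => ‖c k‖) → ∀ δ : ℝ, 0 < δ →
  ∃ b : ℝ → Cf, (∀ τ : ℝ, 0 < τ → CSol ν (fun t => b (t + τ))) ∧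
    (∀ q : ℝ, 2 < q → Tendsto (fun t => besC q (fun k => ‖b t k - c k‖)) (𝓝[>] 0) (𝓝 0)) ∧
    Tendsto (fun t => Real.sqrt t * ∑' k, ‖b t k‖) (𝓝[>] 0) (𝓝 0) ∧
    (∀ q : ℝ, 2 < q → IntegrableOn (fun t => (Real.sqrt t * ∑' k, ‖b t k‖) ^ q / t) (Ioc 0 1)) ∧
    IntegrableOn (fun t => ∑' k, ‖b t k‖ ^ 2) (Ioc 0 1) ∧
    ∀ t, δ ≤ t → ∀ A : Finset K3, ∑ k ∈ A, ‖b t k - U t k‖ ≤ δ

/-- The statement of W5a: as `StmInit`, with more information, without the weak formulation. -/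
def StmInitW : Prop := ∀ (ν : ℝ), 0 < ν → ∀ u₀ : V → V, ContDiff ℝ ∞ u₀ →
  Per u₀ → (∀ x, ∑ i, pd i (fun y => u₀ y i) x = 0) → ∀ (U : ℝ → V → V) (P : ℝ → V → ℝ),
  (∀ T, IsSol ν T U P) → (∀ i, ∫ x in cube, U 0 x i = ∫ x in cube, u₀ x i) →
  ∀ δ : ℝ, 0 < δ →
  ∃ (u : ℝ → V → V) (p : ℝ → V → ℝ), OSol ν u p ∧
    (∀ (T : ℝ) (i : Fin 3),
      IntegrableOn (fun z : ℝ × V => u z.1 z.2 i ^ 2) (Ioc 0 T ×ˢ cube)) ∧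
    (∃ h : ℝ → ℝ, (∀ t, 0 < t → ∀ x i, |u t x i| ≤ h t) ∧
      Tendsto (fun t => Real.sqrt t * h t) (𝓝[>] 0) (𝓝 0) ∧
      ∀ q : ℝ, 2 < q → IntegrableOn (fun t => (Real.sqrt t * h t) ^ q / t) (Ioc 0 1)) ∧
    (∀ q : ℝ, 2 < q → ∀ i,
      Tendsto (fun t => bes q (fun x => u t x i - u₀ x i)) (𝓝[>] 0) (𝓝 0)) ∧
    ∀ t, δ ≤ t → ∀ x i, |u t x i - U t x i| ≤ δ

/-- **Piece W5b.** Convergence in the Besov norm implies convergence of the pairings with smooth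
periodic functions (`|fr f k| ≤ C |k| (bes q f)^(1/q)`). -/
def StmPair : Prop := ∀ (f : ℝ → V → ℝ) (f₀ : V → ℝ), (∀ t, 0 < t → ContDiff ℝ ∞ (f t)) →
  (∀ t, 0 < t → Per (f t)) → ContDiff ℝ ∞ f₀ → Per f₀ →
  Tendsto (fun t => bes 3 (fun x => f t x - f₀ x)) (𝓝[>] 0) (𝓝 0) →
  ∀ φ : V → ℝ, ContDiff ℝ ∞ φ → Per φ →
  Tendsto (fun t => ∫ x in cube, f t x * φ x) (𝓝[>] 0) (𝓝 (∫ x in cube, f₀ x * φ x))

/-- **Piece W5c.** The weak formulation: from the classical one between `τ` and `t`, letting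
`τ → 0`. -/
def StmWk : Prop := ∀ (ν : ℝ) (u : ℝ → V → V) (p : ℝ → V → ℝ), OSol ν u p →
  (∀ (T : ℝ) (i : Fin 3),
    IntegrableOn (fun z : ℝ × V => u z.1 z.2 i ^ 2) (Ioc 0 T ×ˢ cube)) →
  ∀ u₀ : V → V, ContDiff ℝ ∞ u₀ → Per u₀ →
  (∀ i, ∀ φ : V → ℝ, ContDiff ℝ ∞ φ → Per φ →
    Tendsto (fun t => ∫ x in cube, u t x i * φ x) (𝓝[>] 0) (𝓝 (∫ x in cube, u₀ x i * φ x))) →
  ∀ φ : V → V, ContDiff ℝ ∞ φ → Per φ → (∀ x, ∑ i, pd i (fun y => φ y i) x = 0) →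
  ∀ t, 0 < t → ∫ x in cube, ∑ i, u t x i * φ x i = (∫ x in cube, ∑ i, u₀ x i * φ x i)
    + ∫ z in Ioc 0 t ×ˢ cube, (∑ i, ∑ j, u z.1 z.2 i * u z.1 z.2 j * pd i (fun y => φ y j) z.2
      + ν * ∑ i, u z.1 z.2 i * ∑ j, pd j (pd j (fun y => φ y i)) z.2)

/-- **The theorem.** -/
def StmWeak : Prop := ∀ (ν : ℝ), 0 < ν → ∀ u₀ : V → V, ContDiff ℝ ∞ u₀ →
  Per u₀ → (∀ x, ∑ i, pd i (fun y => u₀ y i) x = 0) → ∀ (U : ℝ → V → V) (P : ℝ → V → ℝ),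
  (∀ T, IsSol ν T U P) → (∀ i, ∫ x in cube, U 0 x i = ∫ x in cube, u₀ x i) →
  ∀ δ : ℝ, 0 < δ →
  ∃ (u : ℝ → V → V) (p : ℝ → V → ℝ), OSol ν u p ∧
    (∀ (T : ℝ) (i : Fin 3),
      IntegrableOn (fun z : ℝ × V => u z.1 z.2 i ^ 2) (Ioc 0 T ×ˢ cube)) ∧
    (∀ φ : V → V, ContDiff ℝ ∞ φ → Per φ → (∀ x, ∑ i, pd i (fun y => φ y i) x = 0) →
      ∀ t, 0 < t → ∫ x in cube, ∑ i, u t x i * φ x i = (∫ x in cube, ∑ i, u₀ x i * φ x i)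
        + ∫ z in Ioc 0 t ×ˢ cube,
          (∑ i, ∑ j, u z.1 z.2 i * u z.1 z.2 j * pd i (fun y => φ y j) z.2
            + ν * ∑ i, u z.1 z.2 i * ∑ j, pd j (pd j (fun y => φ y i)) z.2)) ∧
    (∃ h : ℝ → ℝ, (∀ t, 0 < t → ∀ x i, |u t x i| ≤ h t) ∧
      Tendsto (fun t => Real.sqrt t * h t) (𝓝[>] 0) (𝓝 0) ∧
      ∀ q : ℝ, 2 < q → IntegrableOn (fun t => (Real.sqrt t * h t) ^ q / t) (Ioc 0 1)) ∧
    (∀ q : ℝ, 2 < q → ∀ i,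
      Tendsto (fun t => bes q (fun x => u t x i - u₀ x i)) (𝓝[>] 0) (𝓝 0)) ∧
    ∀ t, δ ≤ t → ∀ x i, |u t x i - U t x i| ≤ δ

/-- W5b and W5c give the theorem. -/
theorem weak (h1 : StmInitW) (h2 : StmPair) (h3 : StmWk) : StmWeak := by
  intro ν hν u₀ hs hp hd U P hU hm δ hδ
  obtain ⟨u, p, hO, hL, hh, hb, hc⟩ := h1 ν hν u₀ hs hp hd U P hU hm δ hδ
  refine ⟨u, p, hO, hL, ?_, hh, hb, hc⟩
  refine h3 ν u p hO hL u₀ hs hp ?_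
  intro i φ hφ hφp
  have hsl : ∀ t, 0 < t → ContDiff ℝ ∞ (u t) := by
    intro t ht
    have h := hO.smooth_u.comp (f := fun x : V => ((t, x) : ℝ × V)) (s := univ)
      (contDiff_const.prodMk contDiff_id).contDiffOn
      (fun x _ => ⟨ht, mem_univ _⟩)
    exact contDiffOn_univ.1 h
  refine h2 (fun t x => u t x i) (fun x => u₀ x i) ?_ ?_ ?_ ?_ (hb 3 (by norm_num) i) φ hφ hφp
  · intro t ht
    exact contDiff_pi.1 (hsl t ht) i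
  · intro t ht j x
    show u t (x + Pi.single j 1) i = u t x i
    rw [hO.per_u t ht j x]
  · exact contDiff_pi.1 hs i
  · intro j x
    show u₀ (x + Pi.single j 1) i = u₀ x i
    rw [hp j x]

end Pool.Agent.Run7.h782.WS
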