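import Pool.Agent.Run7.h782.GS.P3

/-!
Stability in the sum norm between two given times.
-/

set_option autoImplicit false

open MeasureTheory Set Filter Topology
open scoped ContDiff ComplexConjugate NNReal

namespace Pool.Agent.Run7.h782.GS

open H459R3.NS Pool.Agent.Run7.h782.GD

/-- Stability in the sum norm, between two times. -/
theorem prop_at {ν : ℝ} (hν : 0 < ν) {a U : ℝ → Cf} (ha : LSol ν a) (hU : LSol ν U) {s : ℝ}
    (hs : 0 ≤ s) {t : ℝ} (hst : s ≤ t) :
    N0 (a t - U t) ≤ N0 (a s - U s) * Real.exp (∫ r in s..t,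
      (36 * (N0 (a r) + N0 (U r)) ^ 2 / ν + 24 * Real.pi * (N1 (a r) + N1 (U r)))) := by
  have hpi := Real.pi_pos
  have haM : Maj a := ha.maj
  have hUM : Maj U := hU.maj
  have hac : Cnt a := ha.cnt
  have hUc : Cnt U := hU.cnt
  set d : ℝ → Cf := fun t => a t - U t with hd
  have hdM : Maj d := haM.sub hUM
  have hdc : Cnt d := hac.sub hUc
  set Gd : ℝ → Cf := fun t => -(nl (d t) (a t) + nl (U t) (d t)) with hGd
  have hGM : Maj Gd := ((hdM.nl haM).add (hUM.nl hdM)).neg
  have hGc : Cnt Gd := ((hdc.nl hac hdM haM).add (hUc.nl hdc hUM hdM)).neg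
  have hder : ∀ t, 0 ≤ t → ∀ k, HasDerivWithinAt (fun s => d s k)
      (-(lam ν k : ℂ) • d t k + Gd t k) (Ici 0) t := diff_der ha hU
  -- the coefficient
  set P : ℝ → ℝ := fun r => N0 (a r) + N0 (U r) with hP
  set Q : ℝ → ℝ := fun r => N1 (a r) + N1 (U r) with hQ
  have hPc : ContinuousOn P (Ici 0) := ha.contN0.add hU.contN0
  have hQc : ContinuousOn Q (Ici 0) := ha.contN1.add hU.contN1
  have hP0 : ∀ r, 0 ≤ P r := fun r => add_nonneg (N0_nonneg _) (N0_nonneg _)
  have hQ0 : ∀ r, 0 ≤ Q r := fun r => add_nonneg (N1_nonneg _) (N1_nonneg _)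
  set β : ℝ → ℝ := fun r => 36 * P r ^ 2 / ν + 24 * Real.pi * Q r with hβ
  have hβc : ContinuousOn β (Ici 0) :=
    ((continuousOn_const.mul (hPc.pow 2)).div_const _).add (continuousOn_const.mul hQc)
  have hβ0 : ∀ r, 0 ≤ β r := fun r => by
    have := hP0 r
    have := hQ0 r
    positivity
  have hN0c : ContinuousOn (fun r => N0 (d r)) (Ici 0) := hdM.cont hdc wt_one
  have hN2c : ContinuousOn (fun r => W (fun k => len k ^ 2) (d r)) (Ici 0) := hdM.cont hdc wt_len2
  -- the integral inequality
  have key : ∀ t, s ≤ t → N0 (d t) ≤ N0 (d s) + ∫ r in s..t, β r * N0 (d r) := by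
    intro t hst
    have h1 := energy hν.le hdM hdc hGM hGc hder wt_one hs hst
    simp only [W_one_len2] at h1
    have h2 : ∫ r in s..t, W (fun _ => 1) (Gd r) ≤ ∫ r in s..t,
        (4 * Real.pi ^ 2 * ν * W (fun k => len k ^ 2) (d r) + β r * N0 (d r)) := by
      refine intervalIntegral.integral_mono_on hst (ii (hGM.cont hGc wt_one) hs hst)
        (((ii hN2c hs hst).const_mul _).add (ii (hβc.mul hN0c) hs hst)) fun r hr => ?_
      have hr0 := hs.trans hr.1
      have l0 := hdM.l1 hr0
      have l1 := hdM.sum wt_len hr0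
      have l2 := hdM.sum wt_len2 hr0
      have a0 := haM.l1 hr0
      have a1 := haM.sum wt_len hr0
      have u0 := hUM.l1 hr0
      have u1 := hUM.sum wt_len hr0
      have g1 : W (fun _ => 1) (Gd r) ≤ N0 (nl (d r) (a r)) + N0 (nl (U r) (d r)) := by
        have m1 := (hdM.nl haM).l1 hr0
        have m2 := (hUM.nl hdM).l1 hr0
        rw [hGd]
        simp only
        rw [W_neg, N0_eq, N0_eq, ← m1.tsum_add m2]
        have e : W (fun _ => 1) (nl (d r) (a r) + nl (U r) (d r))
            = ∑' k, ‖(nl (d r) (a r) + nl (U r) (d r)) k‖ := N0_eq _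
        rw [e]
        exact Summable.tsum_le_tsum (fun k => norm_add_le _ _) (m1.add m2) (Summable.add m1 m2)
      have g2 := N0_nl_le l0 a0 l1 a1
      have g3 := N0_nl_le u0 l0 u1 l1
      have n0 := N0_nonneg (d r)
      -- Young's inequality
      have g4 : 24 * Real.pi * (P r * N1 (d r))
          ≤ 4 * Real.pi ^ 2 * ν * W (fun k => len k ^ 2) (d r) + 36 * P r ^ 2 / ν * N0 (d r) := by
        rw [N0_eq, N1, W, W, ← tsum_mul_left, ← tsum_mul_left, ← tsum_mul_left, ← tsum_mul_left,
          ← (l2.mul_left _).tsum_add (Summable.mul_left _ l0)]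
        refine Summable.tsum_le_tsum (fun k => ?_) ((l1.mul_left _).mul_left _)
          ((l2.mul_left _).add (Summable.mul_left _ l0))
        have y1 : 24 * Real.pi * P r * len k
            ≤ 4 * Real.pi ^ 2 * ν * len k ^ 2 + 36 * P r ^ 2 / ν := by
          have y2 : 0 ≤ (2 * Real.pi * ν * len k - 6 * P r) ^ 2 / ν := by positivity
          have y3 : (2 * Real.pi * ν * len k - 6 * P r) ^ 2 / ν
              = 4 * Real.pi ^ 2 * ν * len k ^ 2 + 36 * P r ^ 2 / ν
                - 24 * Real.pi * P r * len k := by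
            field_simp
            ring
          linarith
        have y4 := mul_le_mul_of_nonneg_right y1 (norm_nonneg (d r k))
        calc 24 * Real.pi * (P r * (len k * ‖d r k‖))
            = 24 * Real.pi * P r * len k * ‖d r k‖ := by ring
          _ ≤ _ := y4
          _ = _ := by ring
      calc W (fun _ => 1) (Gd r) ≤ N0 (nl (d r) (a r)) + N0 (nl (U r) (d r)) := g1
        _ ≤ 24 * Real.pi * (N1 (d r) * N0 (a r) + N0 (d r) * N1 (a r))
            + 24 * Real.pi * (N1 (U r) * N0 (d r) + N0 (U r) * N1 (d r)) := add_le_add g2 g3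
        _ = 24 * Real.pi * (P r * N1 (d r)) + 24 * Real.pi * Q r * N0 (d r) := by
            rw [hP, hQ]
            ring
        _ ≤ _ := by
            rw [hβ]
            simp only
            linarith
    have i2 : IntervalIntegrable (fun r => β r * N0 (d r)) volume s t :=
      ii (hβc.mul hN0c) hs hst
    rw [intervalIntegral.integral_add ((ii hN2c hs hst).const_mul _) i2,
      intervalIntegral.integral_const_mul] at h2
    have e1 : W (fun _ => 1) (d t) = N0 (d t) := rfl
    have e2 : W (fun _ => 1) (d s) = N0 (d s) := rfl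
    rw [e1, e2] at h1
    linarith
  -- Gronwall
  have hsh : ∀ x : ℝ, s + max x 0 ∈ Ici (0 : ℝ) := fun x =>
    mem_Ici.2 (add_nonneg hs (le_max_right _ _))
  have hshc : Continuous fun x : ℝ => s + max x 0 := by fun_prop
  have hint : ∀ (f : ℝ → ℝ) (x : ℝ), 0 ≤ x →
      ∫ q in (0 : ℝ)..x, f (s + max q 0) = ∫ r in s..(s + x), f r := by
    intro f x hx
    have e : ∫ q in (0 : ℝ)..x, f (s + max q 0) = ∫ q in (0 : ℝ)..x, f (s + q) := by
      refine intervalIntegral.integral_congr fun q hq => ?_
      rw [uIcc_of_le hx] at hq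
      simp only [max_eq_left hq.1]
    rw [e, intervalIntegral.integral_comp_add_left, add_zero]
  have hgr := gronwall (y := fun x => N0 (d (s + max x 0))) (b := fun x => β (s + max x 0))
    (c := N0 (d s)) (T := t - s) (hN0c.comp_continuous hshc hsh) (hβc.comp_continuous hshc hsh)
    (fun x _ => hβ0 _) (fun x hx _ => by
      have h1 := key (s + x) (by linarith)
      have h2 := hint (fun r => β r * N0 (d r)) x hx
      rw [h2, max_eq_left hx]
      exact h1) (t - s) (by linarith) le_rfl
  have h1 : N0 (d t) ≤ N0 (d s) * Real.exp (∫ r in s..t, β r) := by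
    have h2 := key t hst
    have h3 := hint (fun r => β r * N0 (d r)) (t - s) (by linarith)
    have h4 := hint β (t - s) (by linarith)
    have e : s + (t - s) = t := by ring
    rw [e] at h3 h4
    rw [h3, h4] at hgr
    exact h2.trans hgr
  exact h1

end Pool.Agent.Run7.h782.GS
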