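import Pool.Agent.Run7.h782.GS.Step3
import Pool.Agent.Run7.h782.WS.PropAt
import Pool.Agent.Run7.h782.WS.Defs

/-!
Solutions near the sum of an approximate solution and a truncated target.
-/

set_option autoImplicit false

open MeasureTheory Set Filter Topology
open scoped ContDiff ComplexConjugate NNReal

namespace Pool.Agent.Run7.h782.WS

open H459R3.NS Pool.Agent.Run7.h782 Pool.Agent.Run7.h782.GD Pool.Agent.Run7.h782.GS

theorem le_of_sq_le_sq'' {a b : ℝ} (h : a ^ 2 ≤ b ^ 2) (hb : 0 ≤ b) : a ≤ b := by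
  nlinarith [sq_nonneg (a - b), sq_nonneg (a + b)]

/-- The body of `StmT1`. -/
def T1C (C₁ : ℝ) : Prop := ∀ (ν : ℝ), 0 < ν → ∀ (B : Finset K3) (v F : ℝ → Cf)
  (g : ℝ → ℝ) (K η : ℝ), Appr ν B v F → Continuous g →
  (∀ t, 0 ≤ t → ∑ k ∈ B, ‖F t k‖ / len k ≤ g t) →
  (∀ T, 0 ≤ T → ∫ t in (0 : ℝ)..T, g t ≤ η) →
  (∀ T, 0 ≤ T → ∫ t in (0 : ℝ)..T, (∑ k ∈ B, ‖v t k‖) ^ 2 ≤ K) →
  C₁ * η * Real.exp (C₁ * K / ν) ≤ ν →
  ∃ a : ℝ → Cf, CSol ν a ∧ a 0 = v 0 ∧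
    (∀ t, 0 ≤ t → ∀ A : Finset K3,
      ∑ k ∈ A, ‖a t k - v t k‖ / len k ≤ C₁ * η * Real.exp (C₁ * K / ν)) ∧
    ∀ T, 0 ≤ T → ∀ A : Finset K3, ∫ t in (0 : ℝ)..T, ∑ k ∈ A, len k * ‖a t k - v t k‖
      ≤ C₁ * η * Real.exp (C₁ * K / ν) / ν

/-- `a` is a solution near `v + U`. -/
structure Near (ν L e₁ : ℝ) (B : Finset K3) (U v F a : ℝ → Cf) : Prop where
  appr : Appr ν B v F
  tgt : LSol ν U
  sol : CSol ν a
  init : a 0 = vt L U v 0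
  m : ∀ t, 0 ≤ t → ∀ A : Finset K3, ∑ k ∈ A, ‖a t k - vt L U v t k‖ / len k ≤ e₁
  one : ∀ T, 0 ≤ T → ∀ A : Finset K3,
    ∫ t in (0 : ℝ)..T, ∑ k ∈ A, len k * ‖a t k - vt L U v t k‖ ≤ e₁ / ν

variable {ν L e₁ : ℝ} {B : Finset K3} {U v F a : ℝ → Cf}

theorem near_exists {C₁ K' M₀ M₁ θ δ : ℝ} (T1 : T1C C₁) (hC₁ : 0 < C₁) (hν : 0 < ν)
    (hUL : LSol ν U) (hM₀ : 0 ≤ M₀) (hN0U : ∀ t, 0 ≤ t → N0 (U t) ≤ M₀)
    (hN1U : ∀ s t, 0 ≤ s → s ≤ t → ∫ r in s..t, N1 (U r) ≤ M₁)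
    (A : Appr ν B v F) {g : ℝ → ℝ} (hg : Continuous g)
    (hFg : ∀ t, 0 ≤ t → ∑ k ∈ B, ‖F t k‖ / len k ≤ g t) {η : ℝ}
    (hη : η = e₁ / (C₁ * Real.exp (C₁ * (2 * K' + 2 * (M₀ * M₁)) / ν)))
    (hgi : ∀ T, 0 ≤ T → ∫ t in (0 : ℝ)..T, g t ≤ η / 3) (hL1 : 0 < L)
    (hL3 : L⁻¹ * (96 * Real.pi * (M₀ * M₁)) ≤ η / 3)
    (he0 : 0 < e₁) (he1 : e₁ ≤ ν) (hK'0 : 0 < K') (hδ0 : 0 < δ)
    (hθ : θ = η / (144 * Real.pi * (M₀ + 1))) (hδ5 : δ ≤ θ / 2) (hδ6 : δ ≤ θ ^ 2 / (4 * K'))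
    (hvK' : ∀ T, 0 ≤ T → ∫ t in (0 : ℝ)..T, (∑ k ∈ B, ‖v t k‖) ^ 2 ≤ K')
    (hvd : ∀ t, δ ≤ t → ∑ k ∈ B, len k * ‖v t k‖ ≤ δ * Real.exp (-t)) :
    ∃ a : ℝ → Cf, Near ν L e₁ B U v F a := by
  have hpi := Real.pi_pos
  have hUM : Maj U := hUL.maj
  have hM₁ : 0 ≤ M₁ := by simpa using hN1U 0 0 le_rfl le_rfl
  set K : ℝ := 2 * K' + 2 * (M₀ * M₁) with hK
  set X : ℝ := Real.exp (C₁ * K / ν) with hX
  have hX0 : 0 < X := Real.exp_pos _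
  have hη0 : 0 < η := by
    rw [hη]
    positivity
  have hθ0 : 0 < θ := by
    rw [hθ]
    positivity
  have hBc := contB A
  have hBi : ∀ T, 0 ≤ T → ∫ t in (0 : ℝ)..T, ∑ k ∈ B, ‖v t k‖ ≤ θ := fun T hT =>
    int_B_le A hδ0 hK'0 hθ0 hδ5 hδ6 hvK' hvd hT
  -- the residual
  have A2 := appr_t (L := L) (U := U) A hUL
  set G : ℝ → ℝ := fun t => ∑ k ∈ Bt B L, ‖Ft L U v F (max t 0) k‖ / len k with hG
  have hGc : Continuous G := by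
    refine continuous_finsetSum _ fun k _ => Continuous.div_const ?_ _
    exact ((A2.contF k).comp_continuous (continuous_id.max continuous_const)
      fun t => (le_max_right t 0 : (0 : ℝ) ≤ max t 0)).norm
  have hGe : ∀ t, 0 ≤ t → G t = ∑ k ∈ Bt B L, ‖Ft L U v F t k‖ / len k := fun t ht => by
    simp only [hG, max_eq_left ht]
  have hGle : ∀ t, 0 ≤ t → G t ≤ g t + 48 * Real.pi * M₀ * (∑ k ∈ B, ‖v t k‖)
      + 96 * Real.pi * L⁻¹ * M₀ * N1 (U t) := by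
    intro t ht
    rw [hGe t ht]
    refine (Ft_le A hUL hL1 ht).trans ?_
    have h1 := hN0U t ht
    have h2 : 0 ≤ ∑ k ∈ B, ‖v t k‖ := Finset.sum_nonneg fun k _ => norm_nonneg _
    have h3 := N1_nonneg (U t)
    rw [N0_supp A]
    have h4 : 48 * Real.pi * ((∑ k ∈ B, ‖v t k‖) * N0 (U t))
        ≤ 48 * Real.pi * ((∑ k ∈ B, ‖v t k‖) * M₀) :=
      mul_le_mul_of_nonneg_left (mul_le_mul_of_nonneg_left h1 h2) (by positivity)
    have h5 : 96 * Real.pi * L⁻¹ * (N1 (U t) * N0 (U t)) ≤ 96 * Real.pi * L⁻¹ * (N1 (U t) * M₀) :=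
      mul_le_mul_of_nonneg_left (mul_le_mul_of_nonneg_left h1 h3) (by positivity)
    have h6 := hFg t ht
    calc _ ≤ g t + 48 * Real.pi * ((∑ k ∈ B, ‖v t k‖) * M₀)
          + 96 * Real.pi * L⁻¹ * (N1 (U t) * M₀) := add_le_add (add_le_add h6 h4) h5
      _ = _ := by ring
  have hGi : ∀ T, 0 ≤ T → ∫ t in (0 : ℝ)..T, G t ≤ η := by
    intro T hT
    have i1 := ii hg.continuousOn le_rfl hT
    have i2 := ii hBc le_rfl hT
    have i3 := ii hUL.contN1 le_rfl hT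
    have h1 : ∫ t in (0 : ℝ)..T, G t ≤ ∫ t in (0 : ℝ)..T, (g t
        + 48 * Real.pi * M₀ * (∑ k ∈ B, ‖v t k‖) + 96 * Real.pi * L⁻¹ * M₀ * N1 (U t)) :=
      intervalIntegral.integral_mono_on hT (hGc.intervalIntegrable _ _)
        ((i1.add (i2.const_mul _)).add (i3.const_mul _)) fun t ht => hGle t ht.1
    rw [intervalIntegral.integral_add (i1.add (i2.const_mul _)) (i3.const_mul _),
      intervalIntegral.integral_add i1 (i2.const_mul _), intervalIntegral.integral_const_mul,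
      intervalIntegral.integral_const_mul] at h1
    have h2 := hgi T hT
    have h3 : 48 * Real.pi * M₀ * (∫ t in (0 : ℝ)..T, ∑ k ∈ B, ‖v t k‖) ≤ η / 3 := by
      calc _ ≤ 48 * Real.pi * M₀ * θ := mul_le_mul_of_nonneg_left (hBi T hT) (by positivity)
        _ ≤ 48 * Real.pi * (M₀ + 1) * θ := by
            refine mul_le_mul_of_nonneg_right ?_ hθ0.le
            refine mul_le_mul_of_nonneg_left ?_ (by positivity)
            linarith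
        _ = η / 3 := by
            rw [hθ]
            field_simp
            norm_num
    have h4 : 96 * Real.pi * L⁻¹ * M₀ * (∫ t in (0 : ℝ)..T, N1 (U t)) ≤ η / 3 := by
      calc _ ≤ 96 * Real.pi * L⁻¹ * M₀ * M₁ :=
            mul_le_mul_of_nonneg_left (hN1U 0 T le_rfl hT) (by positivity)
        _ = L⁻¹ * (96 * Real.pi * (M₀ * M₁)) := by ring
        _ ≤ η / 3 := hL3
    linarith
  -- squares of the truncated target
  have hN0sq : ∀ t, 0 ≤ t → N0 (U t) ^ 2 ≤ M₀ * N1 (U t) := by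
    intro t ht
    have h1 := N0_le_N1 (hUL.zero t ht) (hUM.l1 ht) (hUM.sum wt_len ht)
    have h2 := hN0U t ht
    have h3 := N0_nonneg (U t)
    have h4 := N1_nonneg (U t)
    nlinarith
  have hKi : ∀ T, 0 ≤ T → ∫ t in (0 : ℝ)..T, (∑ k ∈ Bt B L, ‖vt L U v t k‖) ^ 2 ≤ K := by
    intro T hT
    have i2 : IntervalIntegrable (fun t => (∑ k ∈ B, ‖v t k‖) ^ 2) volume 0 T :=
      ii (hBc.pow 2) le_rfl hT
    have i3 := ii hUL.contN1 le_rfl hT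
    have hcv : ContinuousOn (fun t => (∑ k ∈ Bt B L, ‖vt L U v t k‖) ^ 2) (Ici 0) :=
      (continuousOn_finsetSum _ fun k _ => (vt_cnt A hUL k).norm).pow 2
    have h1 : ∫ t in (0 : ℝ)..T, (∑ k ∈ Bt B L, ‖vt L U v t k‖) ^ 2
        ≤ ∫ t in (0 : ℝ)..T, (2 * (∑ k ∈ B, ‖v t k‖) ^ 2 + 2 * M₀ * N1 (U t)) := by
      refine intervalIntegral.integral_mono_on hT (ii hcv le_rfl hT)
        ((i2.const_mul _).add (i3.const_mul _)) fun t ht => ?_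
      have h2 : ∑ k ∈ Bt B L, ‖vt L U v t k‖ ≤ (∑ k ∈ B, ‖v t k‖) + N0 (U t) := by
        calc ∑ k ∈ Bt B L, ‖vt L U v t k‖
            ≤ ∑ k ∈ Bt B L, (‖v t k‖ + ‖U t k‖) := Finset.sum_le_sum fun k _ =>
              (norm_add_le _ _).trans (add_le_add le_rfl (norm_tr_le L (U t) k))
          _ = ∑ k ∈ Bt B L, ‖v t k‖ + ∑ k ∈ Bt B L, ‖U t k‖ := Finset.sum_add_distrib
          _ ≤ _ := add_le_add (sum_supp_le' A t _) (sum_le_N0 (hUM.l1 ht.1) _)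
      have h3 : (∑ k ∈ Bt B L, ‖vt L U v t k‖) ^ 2 ≤ ((∑ k ∈ B, ‖v t k‖) + N0 (U t)) ^ 2 :=
        pow_le_pow_left₀ (Finset.sum_nonneg fun k _ => norm_nonneg _) h2 2
      have h4 := hN0sq t ht.1
      nlinarith [sq_nonneg ((∑ k ∈ B, ‖v t k‖) - N0 (U t))]
    rw [intervalIntegral.integral_add (i2.const_mul _) (i3.const_mul _),
      intervalIntegral.integral_const_mul, intervalIntegral.integral_const_mul] at h1
    have h5 := hvK' T hT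
    have h6 : 2 * M₀ * (∫ t in (0 : ℝ)..T, N1 (U t)) ≤ 2 * M₀ * M₁ :=
      mul_le_mul_of_nonneg_left (hN1U 0 T le_rfl hT) (by positivity)
    rw [hK]
    linarith
  -- the solution
  have hE : C₁ * η * Real.exp (C₁ * K / ν) = e₁ := by
    rw [← hX, hη]
    field_simp
  obtain ⟨a, ha, ha0, hcl, hint⟩ := T1 ν hν (Bt B L) (vt L U v) (Ft L U v F) G K η A2 hGc
    (fun t ht => le_of_eq (hGe t ht).symm) hGi hKi (by rw [hE]; exact he1)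
  rw [hE] at hcl hint
  exact ⟨a, A, hUL, ha, ha0, hcl, hint⟩

section
variable (N : Near ν L e₁ B U v F a)
include N

theorem Near.dM : Maj (fun t => a t - vt L U v t) :=
  (CSol.maj N.sol).sub (vt_maj N.appr N.tgt)

theorem Near.dc : Cnt (fun t => a t - vt L U v t) :=
  (LSol.cnt (CSol.lsol N.sol)).sub (vt_cnt N.appr N.tgt)

theorem Near.d0 {t : ℝ} (ht : 0 ≤ t) : (a t - vt L U v t) 0 = 0 := by
  show a t 0 - vt L U v t 0 = 0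
  rw [N.sol.zero t ht, (appr_t N.appr N.tgt).suppv t 0 (appr_t (L := L) N.appr N.tgt).zero,
    sub_zero]

theorem Near.dm {t : ℝ} (ht : 0 ≤ t) : Nm (a t - vt L U v t) ≤ e₁ := Nm_le_of_sum (N.m t ht)

theorem Near.dc1 : ContinuousOn (fun t => N1 (a t - vt L U v t)) (Ici 0) :=
  N.dM.cont N.dc wt_len

theorem Near.d1 {s t : ℝ} (hs : 0 ≤ s) (hst : s ≤ t) :
    ∫ r in s..t, N1 (a r - vt L U v r) ≤ e₁ / ν := by
  have h2 : ∫ r in (0 : ℝ)..t, N1 (a r - vt L U v r) ≤ e₁ / ν :=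
    int_W_le N.dM N.dc wt_len le_rfl (hs.trans hst) (N.one t (hs.trans hst))
  have h3 := intervalIntegral.integral_add_adjacent_intervals (ii N.dc1 le_rfl hs)
    (ii N.dc1 hs hst)
  have h4 : 0 ≤ ∫ r in (0 : ℝ)..s, N1 (a r - vt L U v r) :=
    intervalIntegral.integral_nonneg hs fun r _ => N1_nonneg _
  linarith

theorem Near.dsq {t : ℝ} (ht : 0 ≤ t) :
    N0 (a t - vt L U v t) ^ 2 ≤ e₁ * N1 (a t - vt L U v t) :=
  (N0_sq_le (N.d0 ht) (N.dM.l1 ht) (N.dM.sum wt_len ht)).trans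
    (mul_le_mul_of_nonneg_right (N.dm ht) (N1_nonneg _))

theorem Near.diff (t : ℝ) (k : K3) :
    a t k - U t k = (a t - vt L U v t) k + v t k - (U t - tr L (U t)) k := by
  show a t k - U t k = (a t k - (v t k + tr L (U t) k)) + v t k - (U t k - tr L (U t) k)
  abel

theorem Near.dle (t : ℝ) (k : K3) :
    ‖a t k - U t k‖ ≤ ‖(a t - vt L U v t) k‖ + ‖v t k‖ + ‖(U t - tr L (U t)) k‖ := by
  rw [N.diff]
  exact (norm_sub_le _ _).trans (add_le_add (norm_add_le _ _) le_rfl)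

theorem Near.sum {t : ℝ} (ht : 0 ≤ t) (A' : Finset K3) : ∑ k ∈ A', ‖a t k - U t k‖
    ≤ N0 (a t - vt L U v t) + (∑ k ∈ B, ‖v t k‖) + N0 (U t - tr L (U t)) := by
  have hUM : Maj U := N.tgt.maj
  calc ∑ k ∈ A', ‖a t k - U t k‖
      ≤ ∑ k ∈ A', (‖(a t - vt L U v t) k‖ + ‖v t k‖ + ‖(U t - tr L (U t)) k‖) :=
        Finset.sum_le_sum fun k _ => N.dle t k
    _ = ∑ k ∈ A', ‖(a t - vt L U v t) k‖ + ∑ k ∈ A', ‖v t k‖
        + ∑ k ∈ A', ‖(U t - tr L (U t)) k‖ := by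
        rw [Finset.sum_add_distrib, Finset.sum_add_distrib]
    _ ≤ _ := add_le_add (add_le_add (sum_le_N0 (N.dM.l1 ht) A') (sum_supp_le' N.appr t A'))
        (sum_le_N0 ((hUM.l1 ht).sub (l1_tr L (U t))) A')

theorem Near.adle {t : ℝ} (w' : K3 → ℝ) (hw' : ∀ k, 0 ≤ w' k) (A' : Finset K3) :
    ∑ k ∈ A', w' k * ‖a t k‖ ≤ ∑ k ∈ A', w' k * ‖(a t - vt L U v t) k‖
      + ∑ k ∈ B, w' k * ‖v t k‖ + ∑ k ∈ A', w' k * ‖U t k‖ := by
  have h1 : ∀ k, ‖a t k‖ ≤ ‖(a t - vt L U v t) k‖ + ‖v t k‖ + ‖U t k‖ := by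
    intro k
    have e : a t k = (a t - vt L U v t) k + v t k + tr L (U t) k := by
      show a t k = (a t k - (v t k + tr L (U t) k)) + v t k + tr L (U t) k
      abel
    calc ‖a t k‖ = ‖(a t - vt L U v t) k + v t k + tr L (U t) k‖ := by rw [← e]
      _ ≤ ‖(a t - vt L U v t) k‖ + ‖v t k‖ + ‖tr L (U t) k‖ :=
          (norm_add_le _ _).trans (add_le_add (norm_add_le _ _) le_rfl)
      _ ≤ _ := add_le_add le_rfl (norm_tr_le L (U t) k)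
  calc ∑ k ∈ A', w' k * ‖a t k‖
      ≤ ∑ k ∈ A', w' k * (‖(a t - vt L U v t) k‖ + ‖v t k‖ + ‖U t k‖) :=
        Finset.sum_le_sum fun k _ => mul_le_mul_of_nonneg_left (h1 k) (hw' k)
    _ = ∑ k ∈ A', w' k * ‖(a t - vt L U v t) k‖ + ∑ k ∈ A', w' k * ‖v t k‖
        + ∑ k ∈ A', w' k * ‖U t k‖ := by
        rw [← Finset.sum_add_distrib, ← Finset.sum_add_distrib]
        exact Finset.sum_congr rfl fun k _ => by ring
    _ ≤ _ := add_le_add (add_le_add le_rfl (sum_supp_le N.appr hw' t A')) le_rfl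

omit N in
/-- Squares of the target. -/
theorem N0sq_le {M₀ : ℝ} (hUL : LSol ν U) (hN0U : ∀ t, 0 ≤ t → N0 (U t) ≤ M₀) {t : ℝ}
    (ht : 0 ≤ t) : N0 (U t) ^ 2 ≤ M₀ * N1 (U t) := by
  have hUM : Maj U := hUL.maj
  have h1 := N0_le_N1 (hUL.zero t ht) (hUM.l1 ht) (hUM.sum wt_len ht)
  have h2 := hN0U t ht
  have h3 := N0_nonneg (U t)
  have h4 := N1_nonneg (U t)
  nlinarith

omit N in
theorem Usub2 {M₀ : ℝ} (hUL : LSol ν U) (hM₀ : 0 ≤ M₀) (hN0U : ∀ t, 0 ≤ t → N0 (U t) ≤ M₀)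
    (hL : 0 < L) {t : ℝ} (ht : 0 ≤ t) :
    N0 (U t - tr L (U t)) ^ 2 ≤ M₀ * (L⁻¹ * N1 (U t)) := by
  have hUM : Maj U := hUL.maj
  have h1 : N0 (U t - tr L (U t)) ≤ L⁻¹ * N1 (U t) :=
    N0_sub_tr_le (hUL.zero t ht) (hUM.l1 ht) (hUM.sum wt_len ht) hL
  have h2 := (N0_sub_tr_le' (hUM.l1 ht) L).trans (hN0U t ht)
  have h3 := N0_nonneg (U t - tr L (U t))
  calc N0 (U t - tr L (U t)) ^ 2 = N0 (U t - tr L (U t)) * N0 (U t - tr L (U t)) := sq _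
    _ ≤ M₀ * (L⁻¹ * N1 (U t)) := mul_le_mul h2 h1 h3 hM₀

/-- `a` is a target. -/
theorem Near.tg {c δ : ℝ} (Int : ∀ (ν : ℝ), 0 < ν → ∀ U : ℝ → Cf, LSol ν U →
      (∃ s : ℝ, 0 ≤ s ∧ ∀ t, s ≤ t → ∀ A : Finset K3, ∑ k ∈ A, ‖U t k‖ / len k ≤ c * ν) →
      Tg ν U) (hc : 0 < c) (hν : 0 < ν) (hU : Tg ν U) (hδ0 : 0 < δ) (hδ3 : δ ≤ c * ν / 3)
    (he2 : e₁ ≤ c * ν / 3)
    (hvd : ∀ t, δ ≤ t → ∑ k ∈ B, len k * ‖v t k‖ ≤ δ * Real.exp (-t)) : Tg ν a := by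
  refine Int ν hν a (CSol.lsol N.sol) ?_
  obtain ⟨s, hs, hsm⟩ := hU.ev (c * ν / 3) (by positivity)
  refine ⟨max s δ, hs.trans (le_max_left _ _), fun t ht A' => ?_⟩
  have hts : s ≤ t := (le_max_left _ _).trans ht
  have htδ : δ ≤ t := (le_max_right _ _).trans ht
  have ht0 : 0 ≤ t := hs.trans hts
  have h1 := N.adle (t := t) (fun k => (len k)⁻¹) (fun k => inv_nonneg.2 (len_nonneg k)) A'
  simp only [← div_eq_inv_mul] at h1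
  have h2 : ∑ k ∈ A', ‖(a t - vt L U v t) k‖ / len k ≤ e₁ := N.m t ht0 A'
  have h3 : ∑ k ∈ B, ‖v t k‖ / len k ≤ δ := by
    refine (Finset.sum_le_sum fun k _ => div_le_len k (v t k)).trans ((hvd t htδ).trans ?_)
    exact mul_le_of_le_one_right hδ0.le (Real.exp_le_one_iff.2 (by linarith))
  have h4 := hsm t hts A'
  linarith

/-- The square integral. -/
theorem Near.sqint {M₀ M₁ H' : ℝ} (hν : 0 < ν) (hM₀ : 0 ≤ M₀)
    (hN0U : ∀ t, 0 ≤ t → N0 (U t) ≤ M₀)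
    (hN1U : ∀ s t, 0 ≤ s → s ≤ t → ∫ r in s..t, N1 (U r) ≤ M₁) (hL : 0 < L)
    (hL6 : L⁻¹ * (M₀ * M₁) ≤ 1 / 3) (he0 : 0 < e₁) (he4 : e₁ ≤ 1) (he1 : e₁ ≤ ν)
    (hvK0 : ∀ T, 0 ≤ T → ∫ t in (0 : ℝ)..T, (∑ k ∈ B, ‖v t k‖) ^ 2 ≤ H') {T : ℝ} (hT : 0 ≤ T)
    (A' : Finset K3) :
    ∫ t in (0 : ℝ)..T, (∑ k ∈ A', ‖a t k - U t k‖) ^ 2 ≤ 3 * H' + 4 := by
  have he6 : e₁ / ν ≤ 1 := (div_le_one hν).2 he1
  have hLi : 0 < L⁻¹ := inv_pos.2 hL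
  have hBc := contB N.appr
  have i1 := ii N.dc1 le_rfl hT
  have i2 : IntervalIntegrable (fun t => (∑ k ∈ B, ‖v t k‖) ^ 2) volume 0 T :=
    ii (hBc.pow 2) le_rfl hT
  have i3 := ii N.tgt.contN1 le_rfl hT
  have hcv : ContinuousOn (fun t => (∑ k ∈ A', ‖a t k - U t k‖) ^ 2) (Ici 0) :=
    (continuousOn_finsetSum _ fun k _ =>
      ((LSol.cnt (CSol.lsol N.sol) k).sub (N.tgt.cnt k)).norm).pow 2
  have h1 : ∫ t in (0 : ℝ)..T, (∑ k ∈ A', ‖a t k - U t k‖) ^ 2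
      ≤ ∫ t in (0 : ℝ)..T, (3 * e₁ * N1 (a t - vt L U v t) + 3 * (∑ k ∈ B, ‖v t k‖) ^ 2
        + 3 * (M₀ * L⁻¹) * N1 (U t)) := by
    refine intervalIntegral.integral_mono_on hT (ii hcv le_rfl hT)
      (((i1.const_mul _).add (i2.const_mul _)).add (i3.const_mul _)) fun t ht => ?_
    have h2 := sq3 (Finset.sum_nonneg fun k _ => norm_nonneg _) (N.sum ht.1 A')
    have h3 := N.dsq ht.1
    have h4 := Usub2 N.tgt hM₀ hN0U hL ht.1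
    nlinarith
  rw [intervalIntegral.integral_add ((i1.const_mul _).add (i2.const_mul _)) (i3.const_mul _),
    intervalIntegral.integral_add (i1.const_mul _) (i2.const_mul _),
    intervalIntegral.integral_const_mul, intervalIntegral.integral_const_mul,
    intervalIntegral.integral_const_mul] at h1
  have h5 : 3 * e₁ * (∫ t in (0 : ℝ)..T, N1 (a t - vt L U v t)) ≤ 3 := by
    have h6 := N.d1 le_rfl hT
    have h7 : 0 ≤ ∫ t in (0 : ℝ)..T, N1 (a t - vt L U v t) :=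
      intervalIntegral.integral_nonneg hT fun r _ => N1_nonneg _
    have h8 : ∫ t in (0 : ℝ)..T, N1 (a t - vt L U v t) ≤ 1 := h6.trans he6
    nlinarith
  have h6 := hvK0 T hT
  have h7 : 3 * (M₀ * L⁻¹) * (∫ t in (0 : ℝ)..T, N1 (U t)) ≤ 1 := by
    calc _ ≤ 3 * (M₀ * L⁻¹) * M₁ :=
          mul_le_mul_of_nonneg_left (hN1U 0 T le_rfl hT) (by positivity)
      _ = 3 * (L⁻¹ * (M₀ * M₁)) := by ring
      _ ≤ 1 := by linarith
  linarith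

/-- The norm in `L²`. -/
theorem Near.l2 {M₀ M₁ Θ Q : ℝ} (hν : 0 < ν) (hM₀ : 0 ≤ M₀)
    (hN0U : ∀ t, 0 ≤ t → N0 (U t) ≤ M₀)
    (hN1U : ∀ s t, 0 ≤ s → s ≤ t → ∫ r in s..t, N1 (U r) ≤ M₁) (hL : 0 < L)
    (hL8 : L⁻¹ * (M₀ * M₁) ≤ Θ / 9) (he0 : 0 < e₁) (he3 : e₁ ≤ Θ / 9) (he1 : e₁ ≤ ν)
    (hvS : ∀ T, 0 ≤ T → ∫ t in (0 : ℝ)..T, ∑ k ∈ B, ‖v t k‖ ^ 2 ≤ Q + Θ / 9) {T : ℝ}
    (hT : 0 ≤ T) (A' : Finset K3) :
    ∫ t in (0 : ℝ)..T, ∑ k ∈ A', ‖a t k - U t k‖ ^ 2 ≤ 3 * Q + Θ := by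
  have he6 : e₁ / ν ≤ 1 := (div_le_one hν).2 he1
  have hLi : 0 < L⁻¹ := inv_pos.2 hL
  have i1 := ii N.dc1 le_rfl hT
  have i2 : IntervalIntegrable (fun t => ∑ k ∈ B, ‖v t k‖ ^ 2) volume 0 T :=
    ii (continuousOn_finsetSum _ fun k _ => (apprv_cnt N.appr k).norm.pow 2) le_rfl hT
  have i3 := ii N.tgt.contN1 le_rfl hT
  have hcv : ContinuousOn (fun t => ∑ k ∈ A', ‖a t k - U t k‖ ^ 2) (Ici 0) :=
    continuousOn_finsetSum _ fun k _ =>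
      ((LSol.cnt (CSol.lsol N.sol) k).sub (N.tgt.cnt k)).norm.pow 2
  have sqs : ∀ (b : Cf), L1 b → ∑ k ∈ A', ‖b k‖ ^ 2 ≤ N0 b ^ 2 := by
    intro b hb
    have h1 : ∑ k ∈ A', ‖b k‖ ^ 2 ≤ (∑ k ∈ A', ‖b k‖) ^ 2 :=
      Finset.sum_sq_le_sq_sum_of_nonneg fun k _ => norm_nonneg _
    exact h1.trans (pow_le_pow_left₀ (Finset.sum_nonneg fun k _ => norm_nonneg _)
      (sum_le_N0 hb A') 2)
  have h1 : ∫ t in (0 : ℝ)..T, ∑ k ∈ A', ‖a t k - U t k‖ ^ 2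
      ≤ ∫ t in (0 : ℝ)..T, (3 * e₁ * N1 (a t - vt L U v t) + 3 * (∑ k ∈ B, ‖v t k‖ ^ 2)
        + 3 * (M₀ * L⁻¹) * N1 (U t)) := by
    refine intervalIntegral.integral_mono_on hT (ii hcv le_rfl hT)
      (((i1.const_mul _).add (i2.const_mul _)).add (i3.const_mul _)) fun t ht => ?_
    have h2 : ∀ k, ‖a t k - U t k‖ ^ 2
        ≤ 3 * (‖(a t - vt L U v t) k‖ ^ 2 + ‖v t k‖ ^ 2 + ‖(U t - tr L (U t)) k‖ ^ 2) := fun k =>
      sq3 (norm_nonneg _) (N.dle t k)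
    have h3 := N.dsq ht.1
    have h4 := Usub2 N.tgt hM₀ hN0U hL ht.1
    have h5 := sqs (a t - vt L U v t) (N.dM.l1 ht.1)
    have h6 := sqs (U t - tr L (U t)) ((Maj.l1 N.tgt.maj ht.1).sub (l1_tr L (U t)))
    have h7 : ∑ k ∈ A', ‖v t k‖ ^ 2 ≤ ∑ k ∈ B, ‖v t k‖ ^ 2 :=
      Pool.Agent.Run7.h32.GD.sum_supp_le (fun k hk => by
        rw [N.appr.suppv t k hk, norm_zero]
        norm_num) fun k => by positivity
    calc ∑ k ∈ A', ‖a t k - U t k‖ ^ 2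
        ≤ ∑ k ∈ A', 3 * (‖(a t - vt L U v t) k‖ ^ 2 + ‖v t k‖ ^ 2
          + ‖(U t - tr L (U t)) k‖ ^ 2) := Finset.sum_le_sum fun k _ => h2 k
      _ = 3 * (∑ k ∈ A', ‖(a t - vt L U v t) k‖ ^ 2 + ∑ k ∈ A', ‖v t k‖ ^ 2
          + ∑ k ∈ A', ‖(U t - tr L (U t)) k‖ ^ 2) := by
          rw [← Finset.mul_sum, Finset.sum_add_distrib, Finset.sum_add_distrib]
      _ ≤ 3 * (e₁ * N1 (a t - vt L U v t) + (∑ k ∈ B, ‖v t k‖ ^ 2) + M₀ * (L⁻¹ * N1 (U t))) :=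
          mul_le_mul_of_nonneg_left (add_le_add (add_le_add (h5.trans h3) h7) (h6.trans h4))
            (by norm_num)
      _ = _ := by ring
  rw [intervalIntegral.integral_add ((i1.const_mul _).add (i2.const_mul _)) (i3.const_mul _),
    intervalIntegral.integral_add (i1.const_mul _) (i2.const_mul _),
    intervalIntegral.integral_const_mul, intervalIntegral.integral_const_mul,
    intervalIntegral.integral_const_mul] at h1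
  have h5 : 3 * e₁ * (∫ t in (0 : ℝ)..T, N1 (a t - vt L U v t)) ≤ 3 * (Θ / 9) := by
    have h6 := N.d1 le_rfl hT
    have h7 : 0 ≤ ∫ t in (0 : ℝ)..T, N1 (a t - vt L U v t) :=
      intervalIntegral.integral_nonneg hT fun r _ => N1_nonneg _
    have h8 : ∫ t in (0 : ℝ)..T, N1 (a t - vt L U v t) ≤ 1 := h6.trans he6
    nlinarith
  have h6 := hvS T hT
  have h7 : 3 * (M₀ * L⁻¹) * (∫ t in (0 : ℝ)..T, N1 (U t)) ≤ 3 * (Θ / 9) := by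
    calc _ ≤ 3 * (M₀ * L⁻¹) * M₁ :=
          mul_le_mul_of_nonneg_left (hN1U 0 T le_rfl hT) (by positivity)
      _ = 3 * (L⁻¹ * (M₀ * M₁)) := by ring
      _ ≤ 3 * (Θ / 9) := mul_le_mul_of_nonneg_left hL8 (by norm_num)
  linarith

end

end Pool.Agent.Run7.h782.WS
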