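import Pool.Agent.Run7.h782.GS.All
import Pool.Agent.Run7.h782.WS.Step
import Pool.Agent.Run7.h744.WS.Geo
import Pool.Agent.Run7.h744.WS.Al
import Pool.Agent.Run7.h980.WS.Prof
import Pool.Agent.Run7.h969.WS.AppP
import Pool.Agent.Run7.h308.WS.IterW
import Pool.Agent.Run7.h811.WS.InitW
import Pool.Agent.Run7.h811.WS.Pair
import Pool.Agent.Run7.h475.WS.W5c
import Pool.Agent.Run7.h811.WS.AlC

/-!
Assembly of the pieces.
-/

set_option autoImplicit false

namespace Pool.Agent.Run7.h782.WS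

theorem stmProf : StmProf := Pool.Agent.Run7.h980.WS.prof Pool.Agent.Run7.h744.WS.stmGeo

theorem stmStepW : StmStepW :=
  stepW GD.stmT1 stmProf (Pool.Agent.Run7.h969.WS.appP Pool.Agent.Run7.h811.WS.stmAlW) GS.stmInt
    Pool.Agent.Run7.h744.WS.stmAl

theorem stmIterW : StmIterW :=
  Pool.Agent.Run7.h308.WS.iterW stmStepW
    (Pool.Agent.Run7.h308.GS.stmLim Pool.Agent.Run7.h744.GS.stmSmooth)
    Pool.Agent.Run7.h744.WS.stmAl

theorem stmWeak : StmWeak :=
  weak (Pool.Agent.Run7.h811.WS.initW stmIterW Pool.Agent.Run7.h969.GD.stmTg'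
    Pool.Agent.Run7.h308.GS.stmPhys2) Pool.Agent.Run7.h811.WS.pair
    Run7.h475.WS.t_StmWk

end Pool.Agent.Run7.h782.WS
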